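import Pool.Agent.W203.BE.Stms

/-! BE-MEAS: joint measurability. -/

set_option autoImplicit false

open MeasureTheory Set Complex
open scoped ENNReal

namespace Pool.Agent.W249.BE

open Pool.Agent.W203.BE

lemma meas_g1 : Measurable (fun q : ℂ × ℝ => g1 q.1 q.2) := by
  unfold g1
  fun_prop

theorem meas : S_MEAS := by
  intro n X _ α f hα hf
  have hA : Measurable (fun z : (X × (Fin n → ℝ)) × (Fin n → ℝ) => (z.1.1, z.2)) :=
    Measurable.prodMk (measurable_fst.comp measurable_fst) measurable_snd
  have h3 : Measurable (fun z : (X × (Fin n → ℝ)) × (Fin n → ℝ) => f z.1.1 z.2) :=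
    hf.comp hA
  have h4 : ∀ j : Fin n, Measurable (fun z : (X × (Fin n → ℝ)) × (Fin n → ℝ) =>
      g1 (α z.1.1 j) ((z.1.2 - z.2) j)) := by
    intro j
    have hB : Measurable (fun z : (X × (Fin n → ℝ)) × (Fin n → ℝ) =>
        ((α z.1.1 j, (z.1.2 - z.2) j) : ℂ × ℝ)) := by
      refine Measurable.prodMk ?_ ?_
      · exact (measurable_pi_apply j).comp (hα.comp (measurable_fst.comp measurable_fst))
      · exact (measurable_pi_apply j).comp
          ((measurable_snd.comp measurable_fst).sub measurable_snd)
    have h5 := meas_g1.comp hB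
    exact h5
  have h1 : Measurable (fun z : (X × (Fin n → ℝ)) × (Fin n → ℝ) =>
      gn (α z.1.1) (z.1.2 - z.2) * f z.1.1 z.2) := by
    refine Measurable.mul ?_ h3
    unfold gn
    exact Finset.measurable_prod _ fun j _ => h4 j
  have h2 := h1.stronglyMeasurable.integral_prod_right' (ν := (volume : Measure (Fin n → ℝ)))
  exact h2.measurable


end Pool.Agent.W249.BE
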